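import Pool.Agent.H50.CP.Fin
import Pool.Agent.H50.CP.L10
import Pool.Agent.H50.CP.L11

/-!
# MP_cfa2f1_pr, Q1: yes

For every `d ≥ 2`, every tree `G` in which all vertices have `d + 1` neighbours and every
`lam > λ_c(ℤ)` (more generally whenever `lam (d-1) > 1`), the upper stationary contact process on `G`
dominates, on the whole of `V × [0,∞)`, a non-trivial independent spin-flip process: there are
`α > 0` and a coupling of the contact process `η_t` started from the upper invariant measure with the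
independent spin-flip process `ξ_t` started from the Bernoulli product measure of density `α/(α+1)`
such that almost surely `ξ_t(x) ≤ η_t(x)` for all vertices `x` and all `t ≥ 0`.
-/

namespace Pool.Agent.Results.MP_cfa2f1_pr.WholeTree

open MeasureTheory H50CP
open scoped NNReal

theorem result (d : ℕ) (hd : 2 ≤ d) {V : Type} (G : SimpleGraph V) (hG : G.IsTree)
    (hdeg : ∀ x, (G.neighborSet x).ncard = d + 1) (lam : ℝ≥0)
    (hl : lamC < lam ∨ 1 < (lam : ℝ) * ((d : ℝ) - 1)) :
    (∃ ν : Measure (V → Bool), IsUpperInv G lam ν) ∧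
    ∀ ν : Measure (V → Bool), IsUpperInv G lam ν →
      ∃ α : ℝ≥0, 0 < α ∧
        ∃ (Ω : Type) (_ : MeasurableSpace Ω) (P : Measure Ω) (_ : IsProbabilityMeasure P)
          (η₀ : Ω → V → Bool) (N₁ : Ω → CS V) (ξ₀ : Ω → V → Bool) (N₂ : Ω → FS V),
          Measurable η₀ ∧ Measurable N₁ ∧ Measurable ξ₀ ∧ Measurable N₂ ∧
          P.map (fun ω => (η₀ ω, N₁ ω)) = ν.prod (CL V lam) ∧
          P.map (fun ω => (ξ₀ ω, N₂ ω)) = (muRho V α).prod (FL V α) ∧
          ∀ᵐ ω ∂P, ∀ (x : V) (t : ℝ), 0 ≤ t →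
            On (N₂ ω) (ξ₀ ω) x t → Inf G (N₁ ω) (η₀ ω) x t := by
  obtain ⟨e⟩ := tree_iso d G hG hdeg
  exact Dom.iso e (lit_result d hd lam hl)

end Pool.Agent.Results.MP_cfa2f1_pr.WholeTree
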